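import Mathlib

/-!
# Wilf's inequality for modular numerical semigroups
-/

namespace Pool.Agent.R866.WM

open Finset
open scoped Classical

/-- The modular numerical semigroup `S(a,b,1) = {x : a x mod b ≤ x}`. -/
def S (a b : ℕ) : Set ℕ := {x | (a * x) % b ≤ x}

/-- `A` is a minimal generating set of `T`: it generates `T` as a monoid and no proper
subset of `A` does. -/
def IsMinGen (T A : Set ℕ) : Prop :=
  (AddSubmonoid.closure A : Set ℕ) = T ∧
    ∀ B : Set ℕ, B ⊂ A → (AddSubmonoid.closure B : Set ℕ) ≠ T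

/-- The atoms of a submonoid of `ℕ`. -/
def atoms (T : AddSubmonoid ℕ) : Set ℕ :=
  {x | x ∈ T ∧ x ≠ 0 ∧ ∀ y ∈ T, ∀ z ∈ T, y ≠ 0 → z ≠ 0 → y + z ≠ x}

theorem closure_atoms (T : AddSubmonoid ℕ) : AddSubmonoid.closure (atoms T) = T := by
  apply le_antisymm
  · rw [AddSubmonoid.closure_le]
    intro x hx
    exact hx.1
  · intro x
    induction x using Nat.strong_induction_on with
    | _ x ih =>
      intro hx
      rcases Nat.eq_zero_or_pos x with h0 | h0
      · subst h0; exact AddSubmonoid.zero_mem _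
      · by_cases hat : x ∈ atoms T
        · exact AddSubmonoid.subset_closure hat
        · have : ∃ y ∈ T, ∃ z ∈ T, y ≠ 0 ∧ z ≠ 0 ∧ y + z = x := by
            by_contra hcon
            push Not at hcon
            exact hat ⟨hx, h0.ne', hcon⟩
          obtain ⟨y, hy, z, hz, hy0, hz0, hyz⟩ := this
          rw [← hyz]
          exact AddSubmonoid.add_mem _ (ih y (by omega) hy) (ih z (by omega) hz)

theorem atoms_subset (T : AddSubmonoid ℕ) {B : Set ℕ}
    (hB : (AddSubmonoid.closure B : Set ℕ) = (T : Set ℕ)) : atoms T ⊆ B := by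
  intro x hx
  have hBT : AddSubmonoid.closure B = T := SetLike.coe_injective hB
  let U : AddSubmonoid ℕ :=
    { carrier := {y | y ∈ T ∧ (y ∉ atoms T ∨ y ∈ B)}
      zero_mem' := ⟨T.zero_mem, Or.inl fun h => h.2.1 rfl⟩
      add_mem' := by
        rintro y z ⟨hy, hy'⟩ ⟨hz, hz'⟩
        rcases Nat.eq_zero_or_pos y with h0 | h0
        · subst h0; rw [zero_add]; exact ⟨hz, hz'⟩
        · rcases Nat.eq_zero_or_pos z with h1 | h1
          · subst h1; rw [add_zero]; exact ⟨hy, hy'⟩
          · exact ⟨T.add_mem hy hz, Or.inl fun h => h.2.2 y hy z hz h0.ne' h1.ne' rfl⟩ }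
  have hle : AddSubmonoid.closure B ≤ U := by
    rw [AddSubmonoid.closure_le]
    intro y hy
    have : y ∈ AddSubmonoid.closure B := AddSubmonoid.subset_closure hy
    rw [hBT] at this
    exact ⟨this, Or.inr hy⟩
  have hxU : x ∈ U := hle (by rw [hBT]; exact hx.1)
  rcases hxU.2 with h | h
  · exact absurd hx h
  · exact h

theorem isMinGen_atoms (T : AddSubmonoid ℕ) : IsMinGen (T : Set ℕ) (atoms T) := by
  refine ⟨by rw [closure_atoms], fun B hB hcl => ?_⟩
  exact hB.2 (atoms_subset T hcl)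

theorem isMinGen_unique (T : AddSubmonoid ℕ) {A : Set ℕ} (hA : IsMinGen (T : Set ℕ) A) :
    A = atoms T := by
  have h1 := atoms_subset T hA.1
  by_contra hne
  exact hA.2 (atoms T) (HasSubset.Subset.ssubset_of_ne h1 (Ne.symm hne)) (by rw [closure_atoms])

variable {a b : ℕ}

theorem mem_S {x : ℕ} : x ∈ S a b ↔ (a * x) % b ≤ x := Iff.rfl

/-- `S(a,b,1)` as a submonoid. -/
def M (a b : ℕ) : AddSubmonoid ℕ where
  carrier := S a b
  zero_mem' := by simp [S]
  add_mem' := by
    intro x y hx hy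
    rw [mem_S] at *
    calc (a * (x + y)) % b ≤ (a * x) % b + (a * y) % b := by
          rw [mul_add, Nat.add_mod]; exact Nat.mod_le _ _
      _ ≤ x + y := add_le_add hx hy

theorem mem_M {x : ℕ} : x ∈ M a b ↔ (a * x) % b ≤ x := Iff.rfl

theorem big_mem (hb : 0 < b) {x : ℕ} (hx : b ≤ x + 1) : x ∈ M a b := by
  rw [mem_M]
  have := Nat.mod_lt (a * x) hb
  omega

/-- Additivity of the residue on sums below `b`. -/
theorem res_add {y z : ℕ} (hy : y ∈ M a b) (hz : z ∈ M a b) (hlt : y + z < b) :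
    (a * (y + z)) % b = (a * y) % b + (a * z) % b := by
  rw [mem_M] at hy hz
  rw [mul_add, Nat.add_mod, Nat.mod_eq_of_lt (by omega)]

/-- The proper elements. -/
def IsP (a b s : ℕ) : Prop := s < b ∧ 0 < (a * s) % b ∧ (a * s) % b < s

theorem IsP.mem {s : ℕ} (h : IsP a b s) : s ∈ M a b := by
  rw [mem_M]; exact h.2.2.le

theorem res_sub {x : ℕ} (hx : x ≤ b) (h0 : 0 < (a * x) % b) :
    (a * (b - x)) % b = b - (a * x) % b := by
  have hb : 0 < b := by
    rcases Nat.eq_zero_or_pos b with h | h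
    · subst h; simp at hx; subst hx; simp at h0
    · exact h
  have h1 : (a * (b - x) + a * x) % b = 0 := by
    rw [← mul_add, Nat.sub_add_cancel hx, Nat.mul_mod_left]
  rw [Nat.add_mod] at h1
  have h2 := Nat.mod_lt (a * (b - x)) hb
  have h3 := Nat.mod_lt (a * x) hb
  have h4 : b ∣ (a * (b - x)) % b + (a * x) % b := Nat.dvd_of_mod_eq_zero h1
  obtain ⟨k, hk⟩ := h4
  have hk1 : k = 1 := by
    rcases k with _ | _ | k
    · simp at hk; omega
    · rfl
    · exfalso
      have : b * 2 ≤ b * (k + 1 + 1) := Nat.mul_le_mul_left b (by omega)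
      omega
  subst hk1
  omega

theorem gap_iff (hb : 0 < b) {x : ℕ} (hx0 : 0 < x) (hxb : x < b) :
    x ∉ M a b ↔ IsP a b (b - x) := by
  rw [mem_M, not_le]
  constructor
  · intro h
    have h0 : 0 < (a * x) % b := by omega
    have h1 := res_sub (a := a) hxb.le h0
    have h3 := Nat.mod_lt (a * x) hb
    refine ⟨by omega, ?_, ?_⟩
    · rw [h1]; omega
    · rw [h1]; omega
  · rintro ⟨_, h1, h2⟩
    have h4 := res_sub (a := a) (b := b) (x := b - x) (by omega) h1
    rw [Nat.sub_sub_self hxb.le] at h4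
    rw [h4]; omega

/-- Two atoms with residue zero coincide. -/
theorem atom_zero_unique {x y : ℕ} (hx : x ∈ atoms (M a b)) (hy : y ∈ atoms (M a b))
    (hx0 : (a * x) % b = 0) (hy0 : (a * y) % b = 0) : x = y := by
  wlog hxy : x ≤ y generalizing x y
  · exact (this hy hx hy0 hx0 (by omega)).symm
  by_contra hne
  have hd : (a * (y - x)) % b = 0 := by
    have h1 : b ∣ a * x := Nat.dvd_of_mod_eq_zero hx0
    have h2 : b ∣ a * y := Nat.dvd_of_mod_eq_zero hy0
    have h3 : b ∣ a * (y - x) := by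
      rw [Nat.mul_sub]; exact Nat.dvd_sub h2 h1
    exact Nat.mod_eq_zero_of_dvd h3
  exact hy.2.2 x hx.1 (y - x) (by rw [mem_M, hd]; exact Nat.zero_le _) hx.2.1 (by omega) (by omega)

/-- Differences of full elements. -/
theorem full_sub {x y : ℕ} (hxy : x ≤ y) (hx : (a * x) % b = x) (hy : (a * y) % b = y)
    (hb : 0 < b) : (a * (y - x)) % b = y - x := by
  have hyb : y < b := by rw [← hy]; exact Nat.mod_lt _ hb
  have h1 : (a * (y - x) + a * x) % b = y := by
    rw [← mul_add, Nat.sub_add_cancel hxy, hy]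
  have h2 := Nat.mod_lt (a * (y - x)) hb
  rw [Nat.add_mod, hx] at h1
  rcases Nat.lt_or_ge ((a * (y - x)) % b + x) b with h | h
  · rw [Nat.mod_eq_of_lt h] at h1; omega
  · rw [Nat.mod_eq_sub_mod h, Nat.mod_eq_of_lt (by omega)] at h1; omega

theorem atom_full_unique (hb : 0 < b) {x y : ℕ} (hx : x ∈ atoms (M a b))
    (hy : y ∈ atoms (M a b)) (hx0 : (a * x) % b = x) (hy0 : (a * y) % b = y) : x = y := by
  wlog hxy : x ≤ y generalizing x y
  · exact (this hy hx hy0 hx0 (by omega)).symm
  by_contra hne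
  have hd := full_sub hxy hx0 hy0 hb
  exact hy.2.2 x hx.1 (y - x) (by rw [mem_M, hd]) hx.2.1 (by omega) (by omega)

/-- Below every nonzero element `y < b` of residue zero there is an atom of residue zero. -/
theorem exists_atom_zero {y : ℕ} (hy : y < b) (hy0 : y ≠ 0) (hr : (a * y) % b = 0) :
    ∃ p, p ∈ atoms (M a b) ∧ (a * p) % b = 0 ∧ p ≤ y ∧ y - p ∈ M a b := by
  have hex : ∃ p, p ≠ 0 ∧ (a * p) % b = 0 := ⟨y, hy0, hr⟩
  set p := Nat.find hex with hp
  have hps := Nat.find_spec hex
  rw [← hp] at hps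
  have hpy : p ≤ y := Nat.find_min' hex ⟨hy0, hr⟩
  refine ⟨p, ⟨?_, hps.1, ?_⟩, hps.2, hpy, ?_⟩
  · rw [mem_M, hps.2]; exact Nat.zero_le _
  · intro u hu v hv hu0 hv0 huv
    have h1 := res_add hu hv (by omega)
    rw [huv, hps.2] at h1
    have : (a * u) % b = 0 := by omega
    have h2 : p ≤ u := Nat.find_min' hex ⟨hu0, this⟩
    omega
  · have h1 : b ∣ a * p := Nat.dvd_of_mod_eq_zero hps.2
    have h2 : b ∣ a * y := Nat.dvd_of_mod_eq_zero hr
    have h3 : b ∣ a * (y - p) := by
      rw [Nat.mul_sub]; exact Nat.dvd_sub h2 h1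
    rw [mem_M, Nat.mod_eq_zero_of_dvd h3]; exact Nat.zero_le _

theorem exists_atom_full (hb : 0 < b) {y : ℕ} (hy : y < b) (hy0 : y ≠ 0)
    (hr : (a * y) % b = y) :
    ∃ p, p ∈ atoms (M a b) ∧ (a * p) % b = p ∧ p ≤ y ∧ y - p ∈ M a b := by
  have hex : ∃ p, p ≠ 0 ∧ (a * p) % b = p := ⟨y, hy0, hr⟩
  set p := Nat.find hex with hp
  have hps := Nat.find_spec hex
  rw [← hp] at hps
  have hpy : p ≤ y := Nat.find_min' hex ⟨hy0, hr⟩
  refine ⟨p, ⟨?_, hps.1, ?_⟩, hps.2, hpy, ?_⟩
  · rw [mem_M, hps.2]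
  · intro u hu v hv hu0 hv0 huv
    have h1 := res_add hu hv (by omega)
    rw [huv, hps.2] at h1
    rw [mem_M] at hu hv
    have : (a * u) % b = u := by omega
    have h2 : p ≤ u := Nat.find_min' hex ⟨hu0, this⟩
    omega
  · rw [mem_M, full_sub hpy hps.2 hr hb]

/-- There is an atom of residue zero or full residue. -/
theorem exists_atom_nonP (hb : 0 < b) :
    ∃ x, x ∈ atoms (M a b) ∧ ((a * x) % b = 0 ∨ (a * x) % b = x) := by
  have hex : ∃ x, x ≠ 0 ∧ ((a * x) % b = 0 ∨ (a * x) % b = x) :=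
    ⟨b, hb.ne', Or.inl (Nat.mul_mod_left a b)⟩
  set x := Nat.find hex with hx
  have hxs := Nat.find_spec hex
  rw [← hx] at hxs
  have hxb : x ≤ b := Nat.find_min' hex ⟨hb.ne', Or.inl (Nat.mul_mod_left a b)⟩
  have hmin : ∀ u, u ≠ 0 → u < x → (a * u) % b ≠ 0 ∧ (a * u) % b ≠ u := by
    intro u hu0 hux
    have := Nat.find_min hex hux
    push Not at this
    exact this hu0
  refine ⟨x, ⟨?_, hxs.1, ?_⟩, hxs.2⟩
  · rw [mem_M]; rcases hxs.2 with h | h
    · rw [h]; exact Nat.zero_le _
    · exact h.le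
  · intro u hu v hv hu0 hv0 huv
    have m1 := hmin u hu0 (by omega)
    rcases Nat.lt_or_ge x b with h | h
    · have h1 := res_add hu hv (by omega)
      rw [huv] at h1
      rw [mem_M] at hu hv
      rcases hxs.2 with h' | h' <;> omega
    · have hxb' : x = b := le_antisymm hxb h
      have h1 : (a * u + a * v) % b = 0 := by
        rw [← mul_add, huv, hxb', Nat.mul_mod_left]
      rw [Nat.add_mod] at h1
      rw [mem_M] at hu hv
      have h4 : b ∣ (a * u) % b + (a * v) % b := Nat.dvd_of_mod_eq_zero h1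
      obtain ⟨k, hk⟩ := h4
      rcases k with _ | _ | k
      · simp at hk; omega
      · omega
      · have : b * 2 ≤ b * (k + 1 + 1) := Nat.mul_le_mul_left b (by omega)
        omega

/-- The key decomposition. -/
theorem decomp (hb : 0 < b) : ∀ s, IsP a b s → ∃ w, IsP a b w ∧ w ≤ s ∧ s - w ∈ M a b ∧
    (w ∈ atoms (M a b) ∨ ∃ p q, p ∈ atoms (M a b) ∧ (a * p) % b = 0 ∧ q ∈ atoms (M a b) ∧
      (a * q) % b = q ∧ w = p + q) := by
  intro s
  induction s using Nat.strong_induction_on with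
  | _ s ih =>
    intro hs
    by_cases hat : s ∈ atoms (M a b)
    · exact ⟨s, hs, le_refl _, by rw [Nat.sub_self]; exact (M a b).zero_mem, Or.inl hat⟩
    · have : ∃ y ∈ M a b, ∃ z ∈ M a b, y ≠ 0 ∧ z ≠ 0 ∧ y + z = s := by
        by_contra hcon
        push Not at hcon
        refine hat ⟨hs.mem, ?_, hcon⟩
        have := hs.2.2; omega
      obtain ⟨y, hy, z, hz, hy0, hz0, hyz⟩ := this
      have hsb := hs.1
      have hadd := res_add hy hz (by omega)
      rw [hyz] at hadd
      have hp1 := hs.2.1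
      have hp2 := hs.2.2
      by_cases hyP : IsP a b y
      · obtain ⟨w, hw, hle, hmem, hor⟩ := ih y (by omega) hyP
        refine ⟨w, hw, by omega, ?_, hor⟩
        have : s - w = (y - w) + z := by omega
        rw [this]; exact (M a b).add_mem hmem hz
      · by_cases hzP : IsP a b z
        · obtain ⟨w, hw, hle, hmem, hor⟩ := ih z (by omega) hzP
          refine ⟨w, hw, by omega, ?_, hor⟩
          have : s - w = (z - w) + y := by omega
          rw [this]; exact (M a b).add_mem hmem hy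
        · have key : ∀ u v : ℕ, u ≠ 0 → v ≠ 0 → u + v = s → (a * u) % b = 0 →
              (a * v) % b = v → ∃ w, IsP a b w ∧ w ≤ s ∧ s - w ∈ M a b ∧
              (w ∈ atoms (M a b) ∨ ∃ p q, p ∈ atoms (M a b) ∧ (a * p) % b = 0 ∧
                q ∈ atoms (M a b) ∧ (a * q) % b = q ∧ w = p + q) := by
            intro u v hu0 hv0 huv hru hrv
            obtain ⟨p, hp, hrp, hpu, hup⟩ := exists_atom_zero (by omega) hu0 hru
            obtain ⟨q, hq, hrq, hqv, hvq⟩ := exists_atom_full hb (by omega) hv0 hrv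
            have hpq := res_add hp.1 hq.1 (by omega)
            have hq0 := hq.2.1
            have hp0 := hp.2.1
            refine ⟨p + q, ⟨by omega, by omega, by omega⟩, by omega, ?_,
              Or.inr ⟨p, q, hp, hrp, hq, hrq, rfl⟩⟩
            have : s - (p + q) = (u - p) + (v - q) := by omega
            rw [this]; exact (M a b).add_mem hup hvq
          rw [mem_M] at hy hz
          have hy' : (a * y) % b = 0 ∨ (a * y) % b = y := by
            by_contra hcon
            push Not at hcon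
            exact hyP ⟨by omega, by omega, by omega⟩
          have hz' : (a * z) % b = 0 ∨ (a * z) % b = z := by
            by_contra hcon
            push Not at hcon
            exact hzP ⟨by omega, by omega, by omega⟩
          rcases hy' with h1 | h1 <;> rcases hz' with h2 | h2
          · omega
          · exact key y z hy0 hz0 hyz h1 h2
          · exact key z y hz0 hy0 (by omega) h2 h1
          · omega

end Pool.Agent.R866.WM
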