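import Pool.Agent.R866.WM.Basic

/-!
# Wilf's inequality for modular numerical semigroups: counting
-/

namespace Pool.Agent.R866.WM

open Finset
open scoped Classical

variable {a b : ℕ}

theorem atoms_lt (hb : 0 < b) {x : ℕ} (hx : x ∈ atoms (M a b)) : x < 2 * b := by
  by_contra h
  push Not at h
  have h1 : b ∈ M a b := by rw [mem_M, Nat.mul_mod_left]; exact Nat.zero_le _
  have h2 : x - b ∈ M a b := big_mem hb (by omega)
  exact hx.2.2 b h1 (x - b) h2 hb.ne' (by omega) (by omega)

theorem atoms_finite (hb : 0 < b) : (atoms (M a b)).Finite :=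
  (Set.finite_Iio (2 * b)).subset fun _ hx => atoms_lt hb hx

/-- The proper elements as a finset. -/
noncomputable def P (a b : ℕ) : Finset ℕ := (range b).filter (IsP a b)

/-- The gaps as a finset. -/
noncomputable def G (a b : ℕ) : Finset ℕ := (range b).filter (fun x => x ∉ M a b)

theorem mem_P {s : ℕ} : s ∈ P a b ↔ IsP a b s := by
  unfold P
  rw [mem_filter, mem_range]
  exact ⟨fun h => h.2, fun h => ⟨h.1, h⟩⟩

theorem mem_G (hb : 0 < b) {x : ℕ} : x ∈ G a b ↔ x ∉ M a b := by
  unfold G
  rw [mem_filter, mem_range]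
  refine ⟨fun h => h.2, fun h => ⟨?_, h⟩⟩
  by_contra hcon
  exact h (big_mem hb (by omega))

theorem coe_G (hb : 0 < b) : (G a b : Set ℕ) = (S a b)ᶜ := by
  ext x
  rw [mem_coe, mem_G hb]
  rfl

theorem pos_of_gap {x : ℕ} (hx : x ∉ M a b) : 0 < x := by
  rcases Nat.eq_zero_or_pos x with h | h
  · subst h; exact absurd (M a b).zero_mem hx
  · exact h

theorem IsP.pos {s : ℕ} (h : IsP a b s) : 0 < s := by
  have := h.2.2; omega

theorem IsP.gap {s : ℕ} (hb : 0 < b) (h : IsP a b s) : b - s ∉ M a b := by
  have h1 := h.1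
  have h2 := h.pos
  rw [gap_iff hb (by omega) (by omega), Nat.sub_sub_self h1.le]
  exact h

theorem card_G (hb : 0 < b) : (G a b).card = (P a b).card := by
  apply card_nbij' (fun x => b - x) (fun x => b - x)
  · intro x hx
    rw [mem_coe] at hx ⊢
    rw [mem_G hb] at hx
    have hxb : x < b := by
      by_contra hcon
      exact hx (big_mem hb (by omega))
    exact mem_P.2 ((gap_iff hb (pos_of_gap hx) hxb).1 hx)
  · intro s hs
    rw [mem_coe] at hs ⊢
    rw [mem_G hb]
    exact (mem_P.1 hs).gap hb
  · intro x hx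
    rw [mem_coe] at hx
    rw [mem_G hb] at hx
    have hxb : x < b := by
      by_contra hcon
      exact hx (big_mem hb (by omega))
    exact Nat.sub_sub_self hxb.le
  · intro s hs
    rw [mem_coe] at hs
    exact Nat.sub_sub_self (mem_P.1 hs).1.le

/-- The set of possible first parts of the decomposition. -/
noncomputable def W (a b : ℕ) (A : Finset ℕ) : Finset ℕ :=
  A.filter (IsP a b) ∪
    ((A.filter fun x => (a * x) % b = 0) ×ˢ (A.filter fun x => (a * x) % b = x)).image
      (fun t => t.1 + t.2)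

theorem card_W (hb : 0 < b) {A : Finset ℕ} (hA : (A : Set ℕ) = atoms (M a b)) :
    (W a b A).card + 1 ≤ A.card := by
  have hmem : ∀ x, x ∈ A ↔ x ∈ atoms (M a b) := fun x => by rw [← hA, mem_coe]
  set Z := A.filter fun x => (a * x) % b = 0 with hZ
  set U := A.filter fun x => (a * x) % b = x with hU
  set Q := A.filter (IsP a b) with hQ
  have h1 : (W a b A).card ≤ Q.card + Z.card * U.card := by
    unfold W
    refine (card_union_le _ _).trans ?_
    refine Nat.add_le_add_left ?_ _
    exact card_image_le.trans (card_product _ _).le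
  have hZ1 : Z.card ≤ 1 := by
    rw [card_le_one]
    intro x hx y hy
    rw [hZ, mem_filter, hmem] at hx hy
    exact atom_zero_unique hx.1 hy.1 hx.2 hy.2
  have hU1 : U.card ≤ 1 := by
    rw [card_le_one]
    intro x hx y hy
    rw [hU, mem_filter, hmem] at hx hy
    exact atom_full_unique hb hx.1 hy.1 hx.2 hy.2
  have hZU : 1 ≤ Z.card + U.card := by
    obtain ⟨x, hx, hor⟩ := exists_atom_nonP (a := a) hb
    rcases hor with h | h
    · have : 0 < Z.card := card_pos.2 ⟨x, by rw [hZ, mem_filter, hmem]; exact ⟨hx, h⟩⟩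
      omega
    · have : 0 < U.card := card_pos.2 ⟨x, by rw [hU, mem_filter, hmem]; exact ⟨hx, h⟩⟩
      omega
  have hd1 : Disjoint Z U := by
    rw [disjoint_left]
    intro x hx hx'
    rw [hZ, mem_filter, hmem] at hx
    rw [hU, mem_filter] at hx'
    exact hx.1.2.1 (by rw [← hx'.2, hx.2])
  have hd2 : Disjoint (Z ∪ U) Q := by
    rw [disjoint_left]
    intro x hx hx'
    rw [mem_union, hZ, hU, mem_filter, mem_filter] at hx
    rw [hQ, mem_filter] at hx'
    have h3 := hx'.2.2.1
    have h4 := hx'.2.2.2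
    rcases hx with h | h
    · have := h.2; omega
    · have := h.2; omega
  have h2 : (Z.card + U.card) + Q.card ≤ A.card := by
    rw [← card_union_of_disjoint hd1, ← card_union_of_disjoint hd2]
    apply card_le_card
    intro x hx
    rw [mem_union, mem_union, hZ, hU, hQ, mem_filter, mem_filter, mem_filter] at hx
    tauto
  have h3 : Z.card * U.card + 1 ≤ Z.card + U.card := by
    rcases Nat.eq_zero_or_pos Z.card with h | h
    · rw [h]; omega
    · have hz : Z.card = 1 := by omega
      rw [hz]; omega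
  omega

/-- The counting inequality: `g ≤ (e - 1) n`. -/
theorem card_P_le (hb : 0 < b) {A : Finset ℕ} (hA : (A : Set ℕ) = atoms (M a b))
    {F : ℕ} (hF : ∀ x ∈ G a b, x ≤ F) :
    (P a b).card ≤ (W a b A).card * ((range (F + 1)).filter (fun x => x ∈ M a b)).card := by
  have hmem : ∀ x, x ∈ A ↔ x ∈ atoms (M a b) := fun x => by rw [← hA, mem_coe]
  have hch : ∀ s : ℕ, ∃ w, IsP a b s → (IsP a b w ∧ w ≤ s ∧ s - w ∈ M a b ∧
    (w ∈ atoms (M a b) ∨ ∃ p q, p ∈ atoms (M a b) ∧ (a * p) % b = 0 ∧ q ∈ atoms (M a b) ∧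
      (a * q) % b = q ∧ w = p + q)) := by
    intro s
    by_cases hs : IsP a b s
    · obtain ⟨w, hw⟩ := decomp hb s hs
      exact ⟨w, fun _ => hw⟩
    · exact ⟨0, fun h => absurd h hs⟩
  choose w hw using hch
  rw [← card_product]
  apply card_le_card_of_injOn (fun s => (w s, s - w s))
  · intro s hs
    rw [mem_coe] at hs ⊢
    rw [mem_P] at hs
    obtain ⟨h1, h2, h3, h4⟩ := hw s hs
    rw [mem_product]
    refine ⟨?_, ?_⟩
    · unfold W
      rw [mem_union]
      rcases h4 with h4 | ⟨p, q, hp, hp0, hq, hq0, hpq⟩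
      · exact Or.inl (by rw [mem_filter, hmem]; exact ⟨h4, h1⟩)
      · refine Or.inr ?_
        rw [mem_image]
        refine ⟨(p, q), ?_, hpq.symm⟩
        rw [mem_product, mem_filter, mem_filter, hmem, hmem]
        exact ⟨⟨hp, hp0⟩, ⟨hq, hq0⟩⟩
    · rw [mem_filter, mem_range]
      refine ⟨?_, h3⟩
      have h5 : b - w s ≤ F := hF _ ((mem_G hb).2 (h1.gap hb))
      have h6 := hs.1
      show s - w s < F + 1
      omega
  · intro s hs t ht hst
    rw [mem_coe, mem_P] at hs ht
    obtain ⟨_, h2, _, _⟩ := hw s hs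
    obtain ⟨_, h2', _, _⟩ := hw t ht
    simp only [Prod.mk.injEq] at hst
    omega

theorem wilf (hb : 0 < b) {A : Finset ℕ} (hA : (A : Set ℕ) = atoms (M a b))
    {F : ℕ} (hF : ∀ x ∈ G a b, x ≤ F) :
    A.card * (G a b).card ≤ (A.card - 1) * (F + 1) := by
  have h1 := card_W hb hA
  have h2 := card_P_le hb hA hF
  rw [← card_G hb] at h2
  have h3 : (G a b).card + ((range (F + 1)).filter (fun x => x ∈ M a b)).card = F + 1 := by
    have h4 : G a b = (range (F + 1)).filter (fun x => ¬ (x ∈ M a b)) := by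
      ext x
      rw [mem_filter, mem_range]
      constructor
      · intro h
        exact ⟨by have := hF x h; omega, (mem_G hb).1 h⟩
      · intro h
        exact (mem_G hb).2 h.2
    rw [h4, add_comm, card_filter_add_card_filter_not, card_range]
  have hA1 : A.card = (A.card - 1) + 1 := by omega
  calc A.card * (G a b).card = (A.card - 1) * (G a b).card + (G a b).card := by
        conv_lhs => rw [hA1]
        ring
    _ ≤ (A.card - 1) * (G a b).card +
        (W a b A).card * ((range (F + 1)).filter (fun x => x ∈ M a b)).card :=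
        Nat.add_le_add_left h2 _
    _ ≤ (A.card - 1) * (G a b).card +
        (A.card - 1) * ((range (F + 1)).filter (fun x => x ∈ M a b)).card :=
        Nat.add_le_add_left (Nat.mul_le_mul_right _ (by omega)) _
    _ = (A.card - 1) * (F + 1) := by rw [← mul_add, h3]

theorem main (a b : ℕ) (hb : 0 < b) :
    ∃ (A : Set ℕ) (F : ℤ), IsMinGen (S a b) A ∧ (∀ B, IsMinGen (S a b) B → B = A) ∧
      A.Finite ∧ (S a b)ᶜ.Finite ∧ IsGreatest {z : ℤ | ∀ x ∈ S a b, (x : ℤ) ≠ z} F ∧
      (A.ncard : ℤ) * ((S a b)ᶜ.ncard : ℤ) ≤ ((A.ncard : ℤ) - 1) * (F + 1) := by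
  have hfin := atoms_finite (a := a) hb
  set A : Finset ℕ := hfin.toFinset with hAdef
  have hA : (A : Set ℕ) = atoms (M a b) := hfin.coe_toFinset
  have hGfin : (S a b)ᶜ.Finite := by rw [← coe_G hb]; exact Finset.finite_toSet _
  have hncardG : (S a b)ᶜ.ncard = (G a b).card := by rw [← coe_G hb, Set.ncard_coe_finset]
  have hncardA : (atoms (M a b)).ncard = A.card := by rw [← hA, Set.ncard_coe_finset]
  rcases (G a b).eq_empty_or_nonempty with hG | hG
  · refine ⟨atoms (M a b), -1, isMinGen_atoms (M a b), fun B hB => isMinGen_unique (M a b) hB,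
      hfin, hGfin, ⟨?_, ?_⟩, ?_⟩
    · intro x _ hx
      have : (0 : ℤ) ≤ (x : ℤ) := Int.natCast_nonneg x
      omega
    · intro z hz
      by_contra hcon
      push Not at hcon
      have hz0 : 0 ≤ z := by omega
      have hzm : z.toNat ∈ S a b := by
        by_contra hcon2
        have : z.toNat ∈ G a b := (mem_G hb).2 hcon2
        rw [hG] at this
        exact absurd this (notMem_empty _)
      exact hz z.toNat hzm (Int.toNat_of_nonneg hz0)
    · rw [hncardG, hG, card_empty]
      simp
  · set F := (G a b).max' hG with hFdef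
    have hF : ∀ x ∈ G a b, x ≤ F := fun x hx => le_max' _ x hx
    have hFG : F ∈ G a b := max'_mem _ hG
    refine ⟨atoms (M a b), (F : ℤ), isMinGen_atoms (M a b),
      fun B hB => isMinGen_unique (M a b) hB, hfin, hGfin, ⟨?_, ?_⟩, ?_⟩
    · intro x hx hxF
      have : x = F := by exact_mod_cast hxF
      subst this
      exact (mem_G hb).1 hFG hx
    · intro z hz
      by_contra hcon
      push Not at hcon
      have hz0 : 0 ≤ z := by
        have : (0 : ℤ) ≤ (F : ℤ) := Int.natCast_nonneg F
        omega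
      have hzm : z.toNat ∈ S a b := by
        by_contra hcon2
        have h1 : z.toNat ∈ G a b := (mem_G hb).2 hcon2
        have h2 := hF _ h1
        omega
      exact hz z.toNat hzm (Int.toNat_of_nonneg hz0)
    · have h1 := wilf hb hA hF
      have h2 := card_W hb hA
      rw [hncardG, hncardA]
      zify [show 1 ≤ A.card by omega] at h1
      exact h1

end Pool.Agent.R866.WM
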